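import Pool.Agent.H59.Per.Defs

/-! Module RICH of MP_588c6d_co: many points on an algebraic curve of bounded degree span linearly
many perimeters. -/

set_option autoImplicit false

open Finset

namespace Pool.Agent.H87.Per

open Pool.Agent.H59.Per

/-! ### distances -/

lemma dd_nonneg (p q : Pl) : 0 ≤ dd p q := Real.sqrt_nonneg _

lemma dd_sq (p q : Pl) : dd p q ^ 2 = (p.1 - q.1) ^ 2 + (p.2 - q.2) ^ 2 :=
  Real.sq_sqrt (by positivity)

lemma dd_comm (p q : Pl) : dd p q = dd q p := by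
  unfold dd
  congr 1
  ring

/-- the point as a complex number -/
noncomputable def toC (p : Pl) : ℂ := ⟨p.1, p.2⟩

lemma toC_inj {p q : Pl} (h : toC p = toC q) : p = q := by
  have h1 := congrArg Complex.re h
  have h2 := congrArg Complex.im h
  exact Prod.ext h1 h2

lemma dd_eq_dist (p q : Pl) : dd p q = dist (toC p) (toC q) := by
  rw [Complex.dist_eq_re_im]
  rfl

lemma dd_triangle (p q r : Pl) : dd p r ≤ dd p q + dd q r := by
  rw [dd_eq_dist, dd_eq_dist, dd_eq_dist]
  exact dist_triangle _ _ _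

lemma dd_pos {p q : Pl} (h : p ≠ q) : 0 < dd p q := by
  rw [dd_eq_dist]
  exact dist_pos.2 fun h' => h (toC_inj h')

/-! ### coefficient arrays -/

lemma coef_zero {d : ℕ} (a : Fin (d + 1) → ℝ)
    (hinf : {x : ℝ | ∑ i, a i * x ^ (i : ℕ) = 0}.Infinite) : a = 0 := by
  classical
  set p : Polynomial ℝ := ∑ i : Fin (d + 1), Polynomial.monomial (i : ℕ) (a i) with hp
  have h0 : p = 0 := by
    apply Polynomial.eq_zero_of_infinite_isRoot
    refine hinf.mono ?_
    intro x hx
    show Polynomial.eval x p = 0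
    rw [hp, Polynomial.eval_finsetSum]
    simpa [Polynomial.eval_monomial] using hx
  funext j
  have h1 : p.coeff (j : ℕ) = a j := by
    rw [hp, Polynomial.finsetSum_coeff]
    rw [Finset.sum_eq_single j]
    · rw [Polynomial.coeff_monomial, if_pos rfl]
    · intro i _ hij
      rw [Polynomial.coeff_monomial, if_neg]
      intro h
      exact hij (Fin.ext h)
    · intro h; exact absurd (Finset.mem_univ _) h
  rw [h0, Polynomial.coeff_zero] at h1
  exact h1.symm

lemma ev2_zero {d : ℕ} (h : Fin (d + 1) → Fin (d + 1) → ℝ) (A : Set ℝ) (hA : A.Infinite)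
    (hx : ∀ x ∈ A, {y : ℝ | ev2 h (x, y) = 0}.Infinite) : h = 0 := by
  have h1 : ∀ x ∈ A, ∀ j, ∑ i, h i j * x ^ (i : ℕ) = 0 := by
    intro x hxA j
    have h2 : (fun j => ∑ i, h i j * x ^ (i : ℕ)) = 0 := by
      apply coef_zero
      refine (hx x hxA).mono ?_
      intro y hy
      have hy' : ev2 h (x, y) = 0 := hy
      show ∑ j, (∑ i, h i j * x ^ (i : ℕ)) * y ^ (j : ℕ) = 0
      rw [← hy']
      unfold ev2
      rw [Finset.sum_comm]
      apply Finset.sum_congr rfl; intro j _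
      rw [Finset.sum_mul]
    exact congrFun h2 j
  funext i j
  have h3 : (fun i => h i j) = 0 := by
    apply coef_zero
    refine hA.mono ?_
    intro x hxA
    exact h1 x hxA j
  exact congrFun h3 i

/-! ### the polynomial in the ellipse parameter -/

/-- denominator of the parametrisation -/
noncomputable def qp (σ c1 c2 : ℝ) : Polynomial ℝ :=
  Polynomial.C (2 * (σ - c1)) + Polynomial.C (-4 * c2) * Polynomial.X +
    Polynomial.C (2 * (σ + c1)) * Polynomial.X ^ 2

lemma eval_qp (σ c1 c2 s : ℝ) : (qp σ c1 c2).eval s =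
    2 * (σ * (1 + s ^ 2) - c1 * (1 - s ^ 2) - 2 * c2 * s) := by
  unfold qp
  simp only [Polynomial.eval_add, Polynomial.eval_mul, Polynomial.eval_C, Polynomial.eval_X,
    Polynomial.eval_pow]
  ring

lemma natDegree_qp (σ c1 c2 : ℝ) : (qp σ c1 c2).natDegree ≤ 2 := by
  unfold qp
  compute_degree

/-- the substituted polynomial -/
noncomputable def Phi {d : ℕ} (h : Fin (d + 1) → Fin (d + 1) → ℝ) (B : Pl) (σ c1 c2 k : ℝ) :
    Polynomial ℝ :=
  ∑ i : Fin (d + 1), ∑ j : Fin (d + 1), Polynomial.C (h i j) *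
    (Polynomial.C B.1 * qp σ c1 c2 + Polynomial.C k * (1 - Polynomial.X ^ 2)) ^ (i : ℕ) *
    (Polynomial.C B.2 * qp σ c1 c2 + Polynomial.C (2 * k) * Polynomial.X) ^ (j : ℕ) *
    (qp σ c1 c2) ^ ((d - (i : ℕ)) + (d - (j : ℕ)))

lemma natDegree_Phi {d : ℕ} (h : Fin (d + 1) → Fin (d + 1) → ℝ) (B : Pl) (σ c1 c2 k : ℝ) :
    (Phi h B σ c1 c2 k).natDegree ≤ 4 * d := by
  unfold Phi
  apply Polynomial.natDegree_sum_le_of_forall_le
  intro i _
  apply Polynomial.natDegree_sum_le_of_forall_le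
  intro j _
  have hi : (i : ℕ) ≤ d := by have := i.2; omega
  have hj : (j : ℕ) ≤ d := by have := j.2; omega
  have hq := natDegree_qp σ c1 c2
  have h1 : (Polynomial.C B.1 * qp σ c1 c2 + Polynomial.C k * (1 - Polynomial.X ^ 2)).natDegree
      ≤ 2 := by
    apply Polynomial.natDegree_add_le_of_degree_le
    · exact (Polynomial.natDegree_C_mul_le _ _).trans hq
    · refine (Polynomial.natDegree_C_mul_le _ _).trans ?_
      compute_degree
  have h2 : (Polynomial.C B.2 * qp σ c1 c2 + Polynomial.C (2 * k) * Polynomial.X).natDegree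
      ≤ 2 := by
    apply Polynomial.natDegree_add_le_of_degree_le
    · exact (Polynomial.natDegree_C_mul_le _ _).trans hq
    · refine (Polynomial.natDegree_C_mul_le _ _).trans ?_
      rw [Polynomial.natDegree_X]
      norm_num
  have e1 := Polynomial.natDegree_pow_le_of_le (i : ℕ) h1
  have e2 := Polynomial.natDegree_pow_le_of_le (j : ℕ) h2
  have e3 := Polynomial.natDegree_pow_le_of_le ((d - (i : ℕ)) + (d - (j : ℕ))) hq
  have e0 : (Polynomial.C (h i j)).natDegree ≤ 0 := by rw [Polynomial.natDegree_C]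
  have e4 := Polynomial.natDegree_mul_le_of_le (Polynomial.natDegree_mul_le_of_le
    (Polynomial.natDegree_mul_le_of_le e0 e1) e2) e3
  refine e4.trans ?_
  omega

lemma eval_Phi {d : ℕ} (h : Fin (d + 1) → Fin (d + 1) → ℝ) (B : Pl) (σ c1 c2 k s x y : ℝ)
    (hx : x * (qp σ c1 c2).eval s = k * (1 - s ^ 2)) (hy : y * (qp σ c1 c2).eval s = 2 * k * s) :
    (Phi h B σ c1 c2 k).eval s = ev2 h (B.1 + x, B.2 + y) * (qp σ c1 c2).eval s ^ (2 * d) := by
  unfold Phi ev2
  rw [Polynomial.eval_finsetSum, Finset.sum_mul]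
  apply Finset.sum_congr rfl; intro i _
  rw [Polynomial.eval_finsetSum, Finset.sum_mul]
  apply Finset.sum_congr rfl; intro j _
  simp only [Polynomial.eval_add, Polynomial.eval_mul, Polynomial.eval_C, Polynomial.eval_X,
    Polynomial.eval_pow, Polynomial.eval_sub, Polynomial.eval_one]
  rw [← hx]
  have e1 : B.1 * (qp σ c1 c2).eval s + x * (qp σ c1 c2).eval s =
      (B.1 + x) * (qp σ c1 c2).eval s := by ring
  have e2 : B.2 * (qp σ c1 c2).eval s + 2 * k * s =
      (B.2 + y) * (qp σ c1 c2).eval s := by rw [← hy]; ring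
  rw [e1, e2, mul_pow, mul_pow]
  have hi : (i : ℕ) ≤ d := by have := i.2; omega
  have hj : (j : ℕ) ≤ d := by have := j.2; omega
  have e3 : 2 * d = (i : ℕ) + (j : ℕ) + ((d - (i : ℕ)) + (d - (j : ℕ))) := by omega
  rw [e3, pow_add _ ((i : ℕ) + (j : ℕ)), pow_add _ (i : ℕ)]
  ring

lemma qp_pos {σ c1 c2 : ℝ} (hσ : 0 < σ) (hk : 0 < σ ^ 2 - (c1 ^ 2 + c2 ^ 2)) (s : ℝ) :
    0 < (qp σ c1 c2).eval s := by
  rw [eval_qp]
  have h1 : (c1 * (1 - s ^ 2) + 2 * c2 * s) ^ 2 < (σ * (1 + s ^ 2)) ^ 2 := by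
    have h2 : (c1 * (1 - s ^ 2) + 2 * c2 * s) ^ 2 ≤ (c1 ^ 2 + c2 ^ 2) * (1 + s ^ 2) ^ 2 := by
      nlinarith [sq_nonneg (c1 * (2 * s) - c2 * (1 - s ^ 2))]
    have h3 : (c1 ^ 2 + c2 ^ 2) * (1 + s ^ 2) ^ 2 < σ ^ 2 * (1 + s ^ 2) ^ 2 := by
      apply mul_lt_mul_of_pos_right
      · linarith
      · positivity
    calc _ ≤ _ := h2
      _ < _ := h3
      _ = _ := by ring
  have h4 := abs_lt_of_sq_lt_sq h1 (by positivity)
  have h5 := (abs_lt.1 h4).2
  linarith

/-- the fundamental relation in polar coordinates around a focus -/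
lemma focus_rel {B C X : Pl} {σ : ℝ} (h : dd X B + dd X C = σ) :
    σ ^ 2 - ((C.1 - B.1) ^ 2 + (C.2 - B.2) ^ 2) =
      2 * (σ * dd X B - (C.1 - B.1) * (X.1 - B.1) - (C.2 - B.2) * (X.2 - B.2)) := by
  have h1 := dd_sq X B
  have h2 := dd_sq X C
  have h3 : dd X C = σ - dd X B := by linarith
  rw [h3] at h2
  nlinarith

lemma par_alg {x y r σ c1 c2 : ℝ} (hr : r ^ 2 = x ^ 2 + y ^ 2) (hx : 0 < r + x)
    (hk : σ ^ 2 - (c1 ^ 2 + c2 ^ 2) = 2 * (σ * r - c1 * x - c2 * y)) :
    x * (qp σ c1 c2).eval (y / (r + x)) =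
        (σ ^ 2 - (c1 ^ 2 + c2 ^ 2)) * (1 - (y / (r + x)) ^ 2) ∧
      y * (qp σ c1 c2).eval (y / (r + x)) =
        2 * (σ ^ 2 - (c1 ^ 2 + c2 ^ 2)) * (y / (r + x)) := by
  rw [eval_qp]
  set s := y / (r + x) with hs
  have hne : r + x ≠ 0 := hx.ne'
  have h1 : 1 - s ^ 2 = 2 * x / (r + x) := by
    rw [hs, div_pow]
    field_simp
    nlinarith
  have h2 : 1 + s ^ 2 = 2 * r / (r + x) := by
    rw [hs, div_pow]
    field_simp
    nlinarith
  have h3 : 2 * (σ * (1 + s ^ 2) - c1 * (1 - s ^ 2) - 2 * c2 * s) =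
      4 * (σ * r - c1 * x - c2 * y) / (r + x) := by
    rw [h1, h2, hs]
    field_simp
    ring
  rw [h3, h1, hk, hs]
  constructor
  · field_simp
    ring
  · field_simp
    ring

/-! ### many zeros on an ellipse -/

lemma add_pos_or {B X : Pl} (h : ¬ 0 < dd X B + (X.1 - B.1)) :
    X.2 = B.2 ∧ X.1 - B.1 = - dd X B := by
  push Not at h
  have h1 := dd_sq X B
  have h2 := dd_nonneg X B
  have h3 : (X.2 - B.2) ^ 2 ≤ 0 := by nlinarith
  have h4 : X.2 - B.2 = 0 := by
    have := le_antisymm h3 (sq_nonneg _)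
    exact pow_eq_zero_iff (two_ne_zero) |>.1 this
  refine ⟨by linarith, ?_⟩
  rw [h4] at h1
  nlinarith

lemma fibre_zero {d : ℕ} (h : Fin (d + 1) → Fin (d + 1) → ℝ) (B C : Pl) {σ : ℝ}
    (hσ : dd B C < σ) (F : Finset Pl) (hF : ∀ X ∈ F, dd X B + dd X C = σ ∧ ev2 h X = 0)
    (hcard : 4 * d + 1 < F.card) (X : Pl) (hX : dd X B + dd X C = σ)
    (hX0 : 0 < dd X B + (X.1 - B.1)) : ev2 h X = 0 := by
  classical
  set c1 := C.1 - B.1 with hc1
  set c2 := C.2 - B.2 with hc2
  have hσ0 : 0 < σ := lt_of_le_of_lt (dd_nonneg _ _) hσ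
  have hBC : dd B C ^ 2 = c1 ^ 2 + c2 ^ 2 := by
    rw [dd_sq, hc1, hc2]; ring
  have hk0 : 0 < σ ^ 2 - (c1 ^ 2 + c2 ^ 2) := by
    rw [← hBC]
    have := dd_nonneg B C
    nlinarith
  set k := σ ^ 2 - (c1 ^ 2 + c2 ^ 2) with hk
  -- the parameter
  have hpar : ∀ Z : Pl, dd Z B + dd Z C = σ → 0 < dd Z B + (Z.1 - B.1) →
      (Phi h B σ c1 c2 k).eval ((Z.2 - B.2) / (dd Z B + (Z.1 - B.1))) =
        ev2 h Z * (qp σ c1 c2).eval ((Z.2 - B.2) / (dd Z B + (Z.1 - B.1))) ^ (2 * d) := by
    intro Z hZ hZ0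
    obtain ⟨e1, e2⟩ := par_alg (dd_sq Z B) hZ0 (focus_rel hZ)
    rw [eval_Phi h B σ c1 c2 k _ _ _ e1 e2]
    congr 2
    ext
    · show B.1 + (Z.1 - B.1) = Z.1
      ring
    · show B.2 + (Z.2 - B.2) = Z.2
      ring
  have hzero : Phi h B σ c1 c2 k = 0 := by
    set F1 := F.filter (fun Z => 0 < dd Z B + (Z.1 - B.1)) with hF1
    have hF2 : (F.filter (fun Z => ¬ 0 < dd Z B + (Z.1 - B.1))).card ≤ 1 := by
      rw [Finset.card_le_one]
      intro Z hZ W hW
      rw [Finset.mem_filter] at hZ hW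
      obtain ⟨a1, a2⟩ := add_pos_or hZ.2
      obtain ⟨b1, b2⟩ := add_pos_or hW.2
      have a3 := focus_rel (hF Z hZ.1).1
      have b3 := focus_rel (hF W hW.1).1
      rw [← hc1, ← hc2] at a3 b3
      rw [a1] at a3
      rw [b1] at b3
      rw [a2] at a3
      rw [b2] at b3
      have h1 : c1 ^ 2 < σ ^ 2 := by nlinarith [sq_nonneg c2]
      have h2 := (abs_lt.1 (abs_lt_of_sq_lt_sq h1 hσ0.le)).1
      have h3 : (σ + c1) * (dd Z B - dd W B) = 0 := by nlinarith
      have h4 : dd Z B = dd W B := by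
        rcases mul_eq_zero.1 h3 with h5 | h5
        · exfalso; linarith
        · linarith
      ext
      · linarith
      · rw [a1, b1]
    have hF3 : 4 * d < F1.card := by
      have := Finset.card_filter_add_card_filter_not (s := F) (fun Z => 0 < dd Z B + (Z.1 - B.1))
      rw [← hF1] at this
      omega
    set S := F1.image (fun Z => (Z.2 - B.2) / (dd Z B + (Z.1 - B.1))) with hS
    have hScard : S.card = F1.card := by
      rw [hS]
      apply Finset.card_image_of_injOn
      intro Z hZ W hW hZW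
      have hZ' := Finset.mem_filter.1 (Finset.mem_coe.1 hZ)
      have hW' := Finset.mem_filter.1 (Finset.mem_coe.1 hW)
      obtain ⟨a1, a2⟩ := par_alg (dd_sq Z B) hZ'.2 (focus_rel (hF Z hZ'.1).1)
      obtain ⟨b1, b2⟩ := par_alg (dd_sq W B) hW'.2 (focus_rel (hF W hW'.1).1)
      have hZW' : (Z.2 - B.2) / (dd Z B + (Z.1 - B.1)) = (W.2 - B.2) / (dd W B + (W.1 - B.1)) := hZW
      rw [hZW'] at a1 a2
      have hq := qp_pos hσ0 hk0 ((W.2 - B.2) / (dd W B + (W.1 - B.1)))
      have e1 := mul_right_cancel₀ hq.ne' (a1.trans b1.symm)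
      have e2 := mul_right_cancel₀ hq.ne' (a2.trans b2.symm)
      ext
      · linarith
      · linarith
    apply Polynomial.eq_zero_of_natDegree_lt_card_of_eval_eq_zero' _ S
    · intro s hs
      rw [hS, Finset.mem_image] at hs
      obtain ⟨Z, hZ, rfl⟩ := hs
      have hZ' := Finset.mem_filter.1 hZ
      rw [hpar Z (hF Z hZ'.1).1 hZ'.2, (hF Z hZ'.1).2, zero_mul]
    · rw [hScard]
      exact (natDegree_Phi h B σ c1 c2 k).trans_lt hF3
  have h1 := hpar X hX hX0
  rw [hzero, Polynomial.eval_zero] at h1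
  have hq := qp_pos hσ0 hk0 ((X.2 - B.2) / (dd X B + (X.1 - B.1)))
  rcases mul_eq_zero.1 h1.symm with h2 | h2
  · exact h2
  · exact absurd h2 (pow_pos hq _).ne'

/-! ### few ellipses -/

/-- the point of the ellipse in direction `(1, m)` -/
noncomputable def tt (B C : Pl) (σ m : ℝ) : ℝ :=
  (σ ^ 2 - ((C.1 - B.1) ^ 2 + (C.2 - B.2) ^ 2)) /
    (2 * (σ * Real.sqrt (1 + m ^ 2) - ((C.1 - B.1) + m * (C.2 - B.2))))

lemma tt_den_pos {B C : Pl} {σ m : ℝ} (hσ : dd B C < σ) :
    0 < σ * Real.sqrt (1 + m ^ 2) - ((C.1 - B.1) + m * (C.2 - B.2)) := by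
  have hw : 0 < Real.sqrt (1 + m ^ 2) := Real.sqrt_pos.2 (by positivity)
  have hw2 : Real.sqrt (1 + m ^ 2) ^ 2 = 1 + m ^ 2 := Real.sq_sqrt (by positivity)
  have hd := dd_sq B C
  have hd0 := dd_nonneg B C
  have h1 : (C.1 - B.1) + m * (C.2 - B.2) ≤ dd B C * Real.sqrt (1 + m ^ 2) := by
    apply le_of_sq_le_sq _ (by positivity)
    rw [mul_pow, hw2, hd]
    nlinarith [sq_nonneg ((C.1 - B.1) * m - (C.2 - B.2))]
  have h2 : dd B C * Real.sqrt (1 + m ^ 2) < σ * Real.sqrt (1 + m ^ 2) :=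
    mul_lt_mul_of_pos_right hσ hw
  linarith

lemma tt_mul {B C : Pl} {σ m : ℝ} (hσ : dd B C < σ) :
    2 * tt B C σ m * (σ * Real.sqrt (1 + m ^ 2) - ((C.1 - B.1) + m * (C.2 - B.2))) =
      σ ^ 2 - ((C.1 - B.1) ^ 2 + (C.2 - B.2) ^ 2) := by
  have h := tt_den_pos (m := m) hσ
  have key : ∀ K D : ℝ, 0 < D → 2 * (K / (2 * D)) * D = K := by
    intro K D hD
    field_simp
  exact key _ _ h

lemma kk_pos {B C : Pl} {σ : ℝ} (hσ : dd B C < σ) :
    0 < σ ^ 2 - ((C.1 - B.1) ^ 2 + (C.2 - B.2) ^ 2) := by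
  have hd := dd_sq B C
  have hd0 := dd_nonneg B C
  nlinarith

lemma tt_pos {B C : Pl} {σ m : ℝ} (hσ : dd B C < σ) : 0 < tt B C σ m := by
  have h := tt_den_pos (m := m) hσ
  have h1 := kk_pos hσ
  unfold tt
  positivity

lemma tt_mem {B C : Pl} {σ m : ℝ} (hσ : dd B C < σ) :
    dd (B.1 + tt B C σ m, B.2 + m * tt B C σ m) B +
        dd (B.1 + tt B C σ m, B.2 + m * tt B C σ m) C = σ ∧
      0 < dd (B.1 + tt B C σ m, B.2 + m * tt B C σ m) B + ((B.1 + tt B C σ m) - B.1) := by
  have ht := tt_pos (m := m) hσ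
  have hmul := tt_mul (m := m) hσ
  set t := tt B C σ m with htdef
  set w := Real.sqrt (1 + m ^ 2) with hw
  have hw0 : 0 < w := Real.sqrt_pos.2 (by positivity)
  have hw2 : w ^ 2 = 1 + m ^ 2 := Real.sq_sqrt (by positivity)
  have hσ0 : 0 < σ := lt_of_le_of_lt (dd_nonneg _ _) hσ
  have h1 : dd (B.1 + t, B.2 + m * t) B = t * w := by
    apply (sq_eq_sq₀ (dd_nonneg _ _) (by positivity)).1
    rw [dd_sq, mul_pow, hw2]
    ring
  have hd := dd_sq B C
  have hd0 := dd_nonneg B C
  have h2 : t * w ≤ σ := by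
    have h3 : (C.1 - B.1) + m * (C.2 - B.2) ≤ dd B C * w := by
      apply le_of_sq_le_sq _ (by positivity)
      rw [mul_pow, hw2, hd]
      nlinarith [sq_nonneg ((C.1 - B.1) * m - (C.2 - B.2))]
    have hden := tt_den_pos (m := m) hσ
    rw [← hw] at hden
    have h4 : w * (σ ^ 2 - ((C.1 - B.1) ^ 2 + (C.2 - B.2) ^ 2)) ≤
        2 * σ * (σ * w - ((C.1 - B.1) + m * (C.2 - B.2))) := by
      have h5 : 2 * σ * ((C.1 - B.1) + m * (C.2 - B.2)) ≤ 2 * σ * (dd B C * w) :=
        mul_le_mul_of_nonneg_left h3 (by positivity)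
      have h6 : 0 ≤ w * (σ - dd B C) ^ 2 := by positivity
      have h7 : (C.1 - B.1) ^ 2 + (C.2 - B.2) ^ 2 = dd B C ^ 2 := by rw [hd]; ring
      rw [h7]
      nlinarith
    rw [← hmul] at h4
    have h8 : (t * w) * (2 * (σ * w - ((C.1 - B.1) + m * (C.2 - B.2)))) ≤
        σ * (2 * (σ * w - ((C.1 - B.1) + m * (C.2 - B.2)))) := by
      calc _ = w * (2 * t * (σ * w - ((C.1 - B.1) + m * (C.2 - B.2)))) := by ring
        _ ≤ _ := h4
        _ = _ := by ring
    exact le_of_mul_le_mul_right h8 (by positivity)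
  have h3 : dd (B.1 + t, B.2 + m * t) C = σ - t * w := by
    apply (sq_eq_sq₀ (dd_nonneg _ _) (by linarith)).1
    rw [dd_sq]
    have e1 : (σ - t * w) ^ 2 = σ ^ 2 - 2 * t * (σ * w) + t ^ 2 * w ^ 2 := by ring
    rw [e1, hw2]
    show (B.1 + t - C.1) ^ 2 + (B.2 + m * t - C.2) ^ 2 = _
    nlinarith
  refine ⟨by rw [h1, h3]; ring, ?_⟩
  rw [h1]
  have : 0 < t * w := by positivity
  linarith

lemma tt_eq_finite {B C C' : Pl} {σ σ' : ℝ} (hne : C ≠ C') (hσ : dd B C < σ) (hσ' : dd B C' < σ') :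
    {m : ℝ | tt B C σ m = tt B C' σ' m}.Finite := by
  by_contra hinf
  have hinf' : {m : ℝ | tt B C σ m = tt B C' σ' m}.Infinite := hinf
  set c1 := C.1 - B.1 with hc1
  set c2 := C.2 - B.2 with hc2
  set c1' := C'.1 - B.1 with hc1'
  set c2' := C'.2 - B.2 with hc2'
  have hk := kk_pos hσ
  have hk' := kk_pos hσ'
  rw [← hc1, ← hc2] at hk
  rw [← hc1', ← hc2'] at hk'
  set k := σ ^ 2 - (c1 ^ 2 + c2 ^ 2) with hkd
  set k' := σ' ^ 2 - (c1' ^ 2 + c2' ^ 2) with hkd'
  set A := k * σ' - k' * σ with hA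
  set a := k * c1' - k' * c1 with ha
  set b := k * c2' - k' * c2 with hb
  have h0 : (![A ^ 2 - a ^ 2, -2 * a * b, A ^ 2 - b ^ 2] : Fin 3 → ℝ) = 0 := by
    apply coef_zero (d := 2)
    refine hinf'.mono ?_
    intro m hm
    have hm' : tt B C σ m = tt B C' σ' m := hm
    have e1 := tt_mul (m := m) hσ
    have e2 := tt_mul (m := m) hσ'
    rw [← hc1, ← hc2, ← hkd] at e1
    rw [← hc1', ← hc2', ← hkd', ← hm'] at e2
    have ht := tt_pos (m := m) hσ
    set t := tt B C σ m with htd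
    set w := Real.sqrt (1 + m ^ 2) with hw
    have hw2 : w ^ 2 = 1 + m ^ 2 := Real.sq_sqrt (by positivity)
    -- `A w = a + b m`
    have e3 : 2 * t * (A * w - (a + b * m)) = 0 := by
      have e4 : k * (2 * t * (σ' * w - (c1' + m * c2'))) -
          k' * (2 * t * (σ * w - (c1 + m * c2))) = 0 := by
        rw [e1, e2]; ring
      rw [hA, ha, hb]
      linarith
    have e5 : A * w - (a + b * m) = 0 := by
      rcases mul_eq_zero.1 e3 with h | h
      · exfalso; linarith
      · exact h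
    have e6 : A ^ 2 * (1 + m ^ 2) = (a + b * m) ^ 2 := by
      rw [← hw2, ← mul_pow]
      congr 1
      linarith
    show ∑ i : Fin 3, (![A ^ 2 - a ^ 2, -2 * a * b, A ^ 2 - b ^ 2] : Fin 3 → ℝ) i * m ^ (i : ℕ) = 0
    rw [Fin.sum_univ_three]
    simp only [Matrix.cons_val_zero, Matrix.cons_val_one, Fin.val_zero, Fin.val_one,
      pow_zero, pow_one, mul_one]
    show A ^ 2 - a ^ 2 + -2 * a * b * m + (A ^ 2 - b ^ 2) * m ^ 2 = 0
    linear_combination e6
  have h1 : A ^ 2 - a ^ 2 = 0 := congrFun h0 0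
  have h2 : -2 * a * b = 0 := congrFun h0 1
  have h3 : A ^ 2 - b ^ 2 = 0 := congrFun h0 2
  have h4 : a = 0 ∧ b = 0 ∧ A = 0 := by
    have h5 : a * b = 0 := by linarith
    rcases mul_eq_zero.1 h5 with h | h
    · rw [h] at h1
      have hA0 : A = 0 := by
        have : A ^ 2 = 0 := by linarith
        exact pow_eq_zero_iff two_ne_zero |>.1 this
      rw [hA0] at h3
      have hb0 : b ^ 2 = 0 := by linarith
      exact ⟨h, pow_eq_zero_iff two_ne_zero |>.1 hb0, hA0⟩
    · rw [h] at h3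
      have hA0 : A = 0 := by
        have : A ^ 2 = 0 := by linarith
        exact pow_eq_zero_iff two_ne_zero |>.1 this
      rw [hA0] at h1
      have hb0 : a ^ 2 = 0 := by linarith
      exact ⟨pow_eq_zero_iff two_ne_zero |>.1 hb0, h, hA0⟩
  obtain ⟨ha0, hb0, hA0⟩ := h4
  -- proportionality
  have p1 : k * σ' = k' * σ := by linarith
  have p2 : k * c1' = k' * c1 := by linarith
  have p3 : k * c2' = k' * c2 := by linarith
  have p4 : k ^ 2 * k' = k' ^ 2 * k := by
    have : k ^ 2 * k' = (k * σ') ^ 2 - ((k * c1') ^ 2 + (k * c2') ^ 2) := by rw [hkd']; ring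
    rw [this, p1, p2, p3]
    rw [hkd]; ring
  have p5 : k = k' := by
    have : (k * k') * (k - k') = 0 := by linarith
    rcases mul_eq_zero.1 this with h | h
    · exact absurd h (mul_pos hk hk').ne'
    · linarith
  rw [← p5] at p2 p3
  have q1 := mul_left_cancel₀ hk.ne' p2
  have q2 := mul_left_cancel₀ hk.ne' p3
  apply hne
  ext
  · rw [hc1, hc1'] at q1; linarith
  · rw [hc2, hc2'] at q2; linarith

/-- the polynomial `t ↦ h (B + t (1, m))` -/
noncomputable def Psi {d : ℕ} (h : Fin (d + 1) → Fin (d + 1) → ℝ) (B : Pl) (m : ℝ) :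
    Polynomial ℝ :=
  ∑ i : Fin (d + 1), ∑ j : Fin (d + 1), Polynomial.C (h i j) *
    (Polynomial.C B.1 + Polynomial.X) ^ (i : ℕ) *
    (Polynomial.C B.2 + Polynomial.C m * Polynomial.X) ^ (j : ℕ)

lemma eval_Psi {d : ℕ} (h : Fin (d + 1) → Fin (d + 1) → ℝ) (B : Pl) (m t : ℝ) :
    (Psi h B m).eval t = ev2 h (B.1 + t, B.2 + m * t) := by
  unfold Psi ev2
  rw [Polynomial.eval_finsetSum]
  apply Finset.sum_congr rfl; intro i _
  rw [Polynomial.eval_finsetSum]
  apply Finset.sum_congr rfl; intro j _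
  simp only [Polynomial.eval_add, Polynomial.eval_mul, Polynomial.eval_C, Polynomial.eval_X,
    Polynomial.eval_pow]

lemma natDegree_Psi {d : ℕ} (h : Fin (d + 1) → Fin (d + 1) → ℝ) (B : Pl) (m : ℝ) :
    (Psi h B m).natDegree ≤ 2 * d := by
  unfold Psi
  apply Polynomial.natDegree_sum_le_of_forall_le
  intro i _
  apply Polynomial.natDegree_sum_le_of_forall_le
  intro j _
  have hi : (i : ℕ) ≤ d := by have := i.2; omega
  have hj : (j : ℕ) ≤ d := by have := j.2; omega
  have h1 : (Polynomial.C B.1 + Polynomial.X).natDegree ≤ 1 := by compute_degree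
  have h2 : (Polynomial.C B.2 + Polynomial.C m * Polynomial.X).natDegree ≤ 1 := by compute_degree
  have e1 := Polynomial.natDegree_pow_le_of_le (i : ℕ) h1
  have e2 := Polynomial.natDegree_pow_le_of_le (j : ℕ) h2
  have e0 : (Polynomial.C (h i j)).natDegree ≤ 0 := by rw [Polynomial.natDegree_C]
  have e4 := Polynomial.natDegree_mul_le_of_le (Polynomial.natDegree_mul_le_of_le e0 e1) e2
  refine e4.trans ?_
  omega

lemma polar {d : ℕ} (h : Fin (d + 1) → Fin (d + 1) → ℝ) (hh : h ≠ 0) (B : Pl) (T : Finset Pl)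
    (hT : ∀ C ∈ T, ∃ σ, dd B C < σ ∧ ∀ X, dd X B + dd X C = σ →
      0 < dd X B + (X.1 - B.1) → ev2 h X = 0) : T.card ≤ 2 * d := by
  classical
  by_contra hcon
  push Not at hcon
  have h1 : ∀ C : Pl, ∃ σ : ℝ, C ∈ T → (dd B C < σ ∧ ∀ X, dd X B + dd X C = σ →
      0 < dd X B + (X.1 - B.1) → ev2 h X = 0) := by
    intro C
    by_cases hC : C ∈ T
    · obtain ⟨σ, hσ⟩ := hT C hC
      exact ⟨σ, fun _ => hσ⟩
    · exact ⟨0, fun h => absurd h hC⟩
  choose σ hσ using h1
  -- bad slopes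
  set bad : Set ℝ := ⋃ p ∈ (T ×ˢ T).filter (fun p => p.1 ≠ p.2),
    {m : ℝ | tt B p.1 (σ p.1) m = tt B p.2 (σ p.2) m} with hbad
  have hbadf : bad.Finite := by
    rw [hbad]
    apply Set.Finite.biUnion (Finset.finite_toSet _)
    intro p hp
    have hp' := Finset.mem_filter.1 (Finset.mem_coe.1 hp)
    have hp1 := Finset.mem_product.1 hp'.1
    exact tt_eq_finite hp'.2 (hσ _ hp1.1).1 (hσ _ hp1.2).1
  -- for good slopes `h` vanishes on the whole line
  have hgood : ∀ m, m ∉ bad → ∀ t, ev2 h (B.1 + t, B.2 + m * t) = 0 := by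
    intro m hm t
    have h0 : Psi h B m = 0 := by
      apply Polynomial.eq_zero_of_natDegree_lt_card_of_eval_eq_zero' _
        (T.image (fun C => tt B C (σ C) m))
      · intro s hs
        obtain ⟨C, hC, rfl⟩ := Finset.mem_image.1 hs
        rw [eval_Psi]
        obtain ⟨e1, e2⟩ := tt_mem (m := m) (hσ C hC).1
        exact (hσ C hC).2 _ e1 e2
      · rw [Finset.card_image_of_injOn]
        · exact (natDegree_Psi h B m).trans_lt hcon
        · intro C hC C' hC' hCC
          by_contra hne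
          apply hm
          rw [hbad, Set.mem_iUnion₂]
          refine ⟨(C, C'), Finset.mem_filter.2 ⟨Finset.mem_product.2
            ⟨Finset.mem_coe.1 hC, Finset.mem_coe.1 hC'⟩, hne⟩, hCC⟩
    rw [← eval_Psi, h0, Polynomial.eval_zero]
  apply hh
  apply ev2_zero h {x : ℝ | x ≠ B.1}
  · exact (Set.finite_singleton B.1).infinite_compl
  · intro x hx
    have hx' : x - B.1 ≠ 0 := sub_ne_zero.2 hx
    have hinj : Function.Injective (fun m : ℝ => B.2 + m * (x - B.1)) := by
      intro m m' hmm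
      have : m * (x - B.1) = m' * (x - B.1) := add_left_cancel hmm
      exact mul_right_cancel₀ hx' this
    refine ((hbadf.infinite_compl).image hinj.injOn).mono ?_
    rintro _ ⟨m, hm, rfl⟩
    have := hgood m hm (x - B.1)
    show ev2 h (x, B.2 + m * (x - B.1)) = 0
    rwa [add_sub_cancel] at this

/-! ### points on a segment -/

lemma seg_par {B C X : Pl} (h : dd B X + dd X C = dd B C) :
    ∃ t : ℝ, 0 ≤ t ∧ toC X = AffineMap.lineMap (toC B) (toC C) t ∧ dd B X = t * dd B C := by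
  rw [dd_eq_dist, dd_eq_dist, dd_eq_dist] at h
  obtain ⟨t, ht, htX⟩ := dist_add_dist_eq_iff.1 h
  refine ⟨t, ht.1, htX.symm, ?_⟩
  rw [dd_eq_dist, dd_eq_dist, ← htX, dist_left_lineMap, Real.norm_eq_abs, abs_of_nonneg ht.1]

lemma seg (P : Finset Pl) (B C : Pl) (hB : B ∈ P) (hBC : B ≠ C) (S : Finset Pl)
    (hS : S ⊆ P) (hS1 : ∀ X ∈ S, dd B X + dd X C = dd B C) :
    S.card ≤ (perims P).card + 2 := by
  classical
  have hD := dd_pos hBC
  by_cases hne : (S.erase B).Nonempty
  · obtain ⟨Y, hY, hYmin⟩ := Finset.exists_min_image (S.erase B) (fun X => dd B X) hne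
    have hY' := Finset.mem_erase.1 hY
    set S' := (S.erase B).erase Y with hS'
    have h1 : S.card ≤ S'.card + 2 := by
      have e1 := Finset.pred_card_le_card_erase (s := S) (a := B)
      have e2 := Finset.pred_card_le_card_erase (s := S.erase B) (a := Y)
      rw [← hS'] at e2
      omega
    have h2 : S'.card ≤ (perims P).card := by
      apply Finset.card_le_card_of_injOn (fun X => pr B Y X)
      · intro X hX
        have hX1 := Finset.mem_erase.1 (Finset.mem_coe.1 hX)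
        have hX2 := Finset.mem_erase.1 hX1.2
        rw [Finset.mem_coe]
        unfold perims
        rw [Finset.mem_image]
        refine ⟨(B, Y, X), ?_, rfl⟩
        rw [Finset.mem_filter]
        refine ⟨?_, ?_⟩
        · simp only [Finset.mem_product]
          exact ⟨hB, hS hY'.2, hS hX2.2⟩
        · exact ⟨hY'.1.symm, hX2.1.symm, hX1.1.symm⟩
      · have key : ∀ X, X ∈ (S' : Set Pl) → pr B Y X = 2 * dd B X := by
          intro X hX
          have hX1 := Finset.mem_erase.1 (Finset.mem_coe.1 hX)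
          have hX2 := Finset.mem_erase.1 hX1.2
          obtain ⟨t, ht0, ht1, ht2⟩ := seg_par (hS1 X hX2.2)
          obtain ⟨u, hu0, hu1, hu2⟩ := seg_par (hS1 Y hY'.2)
          have hle := hYmin X hX1.2
          have hut : u ≤ t := by
            rw [ht2, hu2] at hle
            exact le_of_mul_le_mul_right hle hD
          have hYX : dd Y X = (t - u) * dd B C := by
            rw [dd_eq_dist Y X, ht1, hu1, dist_lineMap_lineMap, dd_eq_dist B C, Real.dist_eq,
              abs_sub_comm, abs_of_nonneg (by linarith)]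
          unfold pr
          rw [hYX, ht2, hu2]
          ring
        intro X hX X' hX' hXX
        have e1 : pr B Y X = pr B Y X' := hXX
        rw [key X hX, key X' hX'] at e1
        have hX1 := Finset.mem_erase.1 (Finset.mem_coe.1 hX)
        have hX2 := Finset.mem_erase.1 hX1.2
        have hX1' := Finset.mem_erase.1 (Finset.mem_coe.1 hX')
        have hX2' := Finset.mem_erase.1 hX1'.2
        obtain ⟨t, ht0, ht1, ht2⟩ := seg_par (hS1 X hX2.2)
        obtain ⟨t', ht0', ht1', ht2'⟩ := seg_par (hS1 X' hX2'.2)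
        rw [ht2, ht2'] at e1
        have e2 : t = t' := by
          apply mul_right_cancel₀ hD.ne'
          linarith
        apply toC_inj
        rw [ht1, ht1', e2]
    omega
  · rw [Finset.not_nonempty_iff_eq_empty] at hne
    have e1 := Finset.pred_card_le_card_erase (s := S) (a := B)
    rw [hne, Finset.card_empty] at e1
    omega

/-- Module RICH. -/
theorem rich : RICH := by
  classical
  intro d
  refine ⟨1 / (32 * (4 * d + 2)), by positivity, 64 + 16 * (2 * d + 2), ?_⟩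
  intro P h hh hn hcard
  set P' := P.filter (fun p => ev2 h p = 0) with hP'
  have hP'P : P' ⊆ P := Finset.filter_subset _ _
  have hP'0 : ∀ X ∈ P', ev2 h X = 0 := fun X hX => (Finset.mem_filter.1 hX).2
  have hP'c : 2 * d + 2 ≤ P'.card := by omega
  obtain ⟨B, hB⟩ : P'.Nonempty := by
    rw [← Finset.card_pos]; omega
  have hBc : 2 * d < (P'.erase B).card := by
    rw [Finset.card_erase_of_mem hB]; omega
  -- a good second focus
  obtain ⟨C, hC, hCgood⟩ : ∃ C ∈ P'.erase B, ¬ ∃ σ, dd B C < σ ∧ ∀ X, dd X B + dd X C = σ →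
      0 < dd X B + (X.1 - B.1) → ev2 h X = 0 := by
    by_contra hcon
    push Not at hcon
    have := polar h hh B (P'.erase B) hcon
    omega
  have hC' := Finset.mem_erase.1 hC
  have hBC : B ≠ C := hC'.1.symm
  -- the points on the segment
  set S := P'.filter (fun X => dd B X + dd X C = dd B C) with hS
  have hScard : S.card ≤ (perims P).card + 2 := by
    apply seg P B C (hP'P hB) hBC S
    · exact (Finset.filter_subset _ _).trans hP'P
    · intro X hX
      exact (Finset.mem_filter.1 hX).2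
  set V := P'.filter (fun X => ¬ dd B X + dd X C = dd B C) with hV
  have hSV : S.card + V.card = P'.card := by
    rw [hS, hV]
    exact Finset.card_filter_add_card_filter_not _
  have hVcard : V.card ≤ (4 * d + 1) * (perims P).card := by
    have h1 : V.card ≤ (4 * d + 1) * (V.image (fun X => pr B C X)).card := by
      apply Finset.card_le_mul_card_image
      intro θ hθ
      by_contra hcon
      push Not at hcon
      obtain ⟨X0, hX0, hX0'⟩ := Finset.mem_image.1 hθ
      have hX0'' := Finset.mem_filter.1 hX0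
      apply hCgood
      refine ⟨θ - dd B C, ?_, ?_⟩
      · have e1 : dd B C ≤ dd B X0 + dd X0 C := dd_triangle _ _ _
        have e2 : dd B C < dd B X0 + dd X0 C := lt_of_le_of_ne e1 (Ne.symm hX0''.2)
        rw [← hX0']
        show dd B C < dd B C + dd B X0 + dd C X0 - dd B C
        rw [dd_comm C X0]
        linarith
      · intro X hX hXpos
        apply fibre_zero h B C (σ := θ - dd B C) _ (V.filter (fun X => pr B C X = θ)) _ hcon X hX
          hXpos
        · have e1 : dd B C ≤ dd B X0 + dd X0 C := dd_triangle _ _ _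
          have e2 : dd B C < dd B X0 + dd X0 C := lt_of_le_of_ne e1 (Ne.symm hX0''.2)
          rw [← hX0']
          show dd B C < dd B C + dd B X0 + dd C X0 - dd B C
          rw [dd_comm C X0]
          linarith
        · intro Z hZ
          have hZ' := Finset.mem_filter.1 hZ
          have hZ'' := Finset.mem_filter.1 hZ'.1
          refine ⟨?_, hP'0 Z hZ''.1⟩
          rw [← hZ'.2]
          show dd Z B + dd Z C = dd B C + dd B Z + dd C Z - dd B C
          rw [dd_comm B Z, dd_comm C Z]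
          ring
    have h2 : (V.image (fun X => pr B C X)) ⊆ perims P := by
      intro θ hθ
      obtain ⟨X, hX, rfl⟩ := Finset.mem_image.1 hθ
      have hX' := Finset.mem_filter.1 hX
      unfold perims
      rw [Finset.mem_image]
      refine ⟨(B, C, X), ?_, rfl⟩
      rw [Finset.mem_filter]
      refine ⟨?_, ?_⟩
      · simp only [Finset.mem_product]
        exact ⟨hP'P hB, hP'P hC'.2, hP'P hX'.1⟩
      · refine ⟨hBC, ?_, ?_⟩
        · intro (hBX : B = X)
          apply hX'.2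
          have : dd B X = 0 := by rw [dd_eq_dist, ← hBX, dist_self]
          rw [this, zero_add, hBX]
        · intro (hCX : C = X)
          apply hX'.2
          have : dd X C = 0 := by rw [dd_eq_dist, hCX, dist_self]
          rw [this, add_zero, hCX]
    exact h1.trans (Nat.mul_le_mul_left _ (Finset.card_le_card h2))
  have hfin : P'.card ≤ (4 * d + 2) * (perims P).card + 2 := by
    have : (4 * d + 2) * (perims P).card = (4 * d + 1) * (perims P).card + (perims P).card := by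
      ring
    omega
  have hfin2 : P.card ≤ 16 * ((4 * d + 2) * (perims P).card + 2) :=
    hcard.trans (Nat.mul_le_mul_left _ hfin)
  have hfin3 : P.card ≤ 32 * ((4 * d + 2) * (perims P).card) := by omega
  have hfin4 : (P.card : ℝ) ≤ 32 * ((4 * d + 2) * (perims P).card) := by exact_mod_cast hfin3
  rw [one_div, inv_mul_le_iff₀ (by positivity)]
  linarith

end Pool.Agent.H87.Per
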